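import Pool.Agent.helper56.CY.Spec

/-! # Row cy:LKC: from a family of even subgraphs to a colouring -/

set_option autoImplicit false

namespace Pool.Agent.CY
open Finset CT

theorem LKC : LKC_stmt := by
  intro V _ _ G e b C he hadj hsurj hinj hF hcov
  classical
  have hex : ∀ d : V × Fin 4, ∃ m : ℕ, (∀ i : Fin b, (C i).Adj d.1 (e d).1 → m = i.val + 1) ∧
      ((∀ i : Fin b, ¬ (C i).Adj d.1 (e d).1) → m = 0) := by
    intro d
    by_cases h : ∃ i : Fin b, (C i).Adj d.1 (e d).1
    · obtain ⟨i, hi⟩ := h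
      refine ⟨i.val + 1, ?_, fun h => absurd hi (h i)⟩
      intro j hj
      by_cases hij : i = j
      · rw [hij]
      · exact absurd hj (hF.disj i j hij _ _ hi)
    · exact ⟨0, fun i hi => absurd ⟨i, hi⟩ h, fun _ => rfl⟩
  choose c hc1 hc2 using hex
  have hlt : ∀ d : V × Fin 4, c d = 0 ∨ ∃ i : Fin b, (C i).Adj d.1 (e d).1 ∧ c d = i.val + 1 := by
    intro d
    by_cases h : ∃ i : Fin b, (C i).Adj d.1 (e d).1
    · obtain ⟨i, hi⟩ := h
      exact Or.inr ⟨i, hi, hc1 d i hi⟩
    · exact Or.inl (hc2 d fun i hi => h ⟨i, hi⟩)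
  have hci : ∀ (d : V × Fin 4) (i : Fin b), c d = i.val + 1 ↔ (C i).Adj d.1 (e d).1 := by
    intro d i
    constructor
    · intro h
      rcases hlt d with h1 | ⟨j, hj, h1⟩
      · omega
      · have h2 : j = i := Fin.ext (by omega)
        rw [← h2]
        exact hj
    · exact hc1 d i
  have hc0 : ∀ d : V × Fin 4, c d ≠ 0 ↔ ∃ i : Fin b, (C i).Adj d.1 (e d).1 := by
    intro d
    constructor
    · intro h
      rcases hlt d with h1 | ⟨j, hj, _⟩
      · exact absurd h1 h
      · exact ⟨j, hj⟩
    · rintro ⟨i, hi⟩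
      rw [hc1 d i hi]
      exact Nat.succ_ne_zero _
  have hce : ∀ d, c (e d) = c d := by
    intro d
    rcases hlt d with h1 | ⟨j, hj, h1⟩
    · rw [h1]
      refine hc2 (e d) fun i hi => ?_
      rw [he] at hi
      exact (hc0 d).2 ⟨i, hi.symm⟩ h1
    · rw [h1]
      refine hc1 (e d) j ?_
      rw [he]
      exact hj.symm
  have hpos : ∀ (u : V) (i : Fin b),
      Even ((univ : Finset (Fin 4)).filter fun l => c (u, l) = i.val + 1).card := by
    intro u i
    have h1 : ((univ : Finset (Fin 4)).filter fun l => c (u, l) = i.val + 1).card =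
        Nat.card {w // (C i).Adj u w} := by
      have h2 : Function.Bijective
          (fun l : {l : Fin 4 // c (u, l) = i.val + 1} =>
            (⟨(e (u, l.1)).1, (hci (u, l.1) i).1 l.2⟩ : {w // (C i).Adj u w})) := by
        constructor
        · intro l l' h
          exact Subtype.ext (hinj u l.1 l'.1 (congrArg Subtype.val h))
        · rintro ⟨w, hw⟩
          obtain ⟨l, hl⟩ := hsurj u w (hF.le i hw)
          refine ⟨⟨l, (hci (u, l) i).2 ?_⟩, Subtype.ext hl⟩
          rw [hl]
          exact hw
      rw [← Nat.card_congr (Equiv.ofBijective _ h2), Nat.card_eq_fintype_card, Fintype.card_subtype]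
    rw [h1]
    exact hF.even i u
  have hbd : ∀ d, c d < b + 1 := by
    intro d
    rcases hlt d with h1 | ⟨j, _, h1⟩
    · omega
    · have := j.2
      omega
  refine ⟨c, ⟨hce, ?_⟩, ?_, ?_, ?_⟩
  · intro u _ k
    rcases Nat.eq_zero_or_pos k with hk | hk
    · subst hk
      have h1 : (univ : Finset (Fin 4)).card =
          ∑ k ∈ range (b + 1), ((univ : Finset (Fin 4)).filter fun l => c (u, l) = k).card :=
        Finset.card_eq_sum_card_fiberwise fun l _ => Finset.mem_coe.2 (Finset.mem_range.2 (hbd (u, l)))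
      rw [Finset.sum_range_succ', Finset.card_univ, Fintype.card_fin] at h1
      have h2 : Even (∑ k ∈ range b,
          ((univ : Finset (Fin 4)).filter fun l => c (u, l) = k + 1).card) :=
        Finset.even_sum _ fun k hk => hpos u ⟨k, Finset.mem_range.1 hk⟩
      have h3 : Even 4 := by decide
      rw [h1, Nat.even_add] at h3
      exact h3.1 h2
    · rcases Nat.lt_or_ge b k with hb | hb
      · have h1 : ((univ : Finset (Fin 4)).filter fun l => c (u, l) = k) = ∅ := by
          refine Finset.filter_eq_empty_iff.2 fun l _ h => ?_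
          have := hbd (u, l)
          omega
        rw [h1]
        exact ⟨0, rfl⟩
      · have h1 := hpos u ⟨k - 1, by omega⟩
        have h2 : k - 1 + 1 = k := by omega
        simp only [h2] at h1
        exact h1
  · unfold Covers at hcov
    push Not at hcov
    obtain ⟨u, w, huw, hn⟩ := hcov
    obtain ⟨l, hl⟩ := hsurj u w huw
    refine Finset.mem_image.2 ⟨(u, l), ?_, ?_⟩
    · unfold dts
      exact Finset.mem_product.2 ⟨Finset.mem_univ _, Finset.mem_univ _⟩
    · refine hc2 (u, l) fun i hi => ?_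
      rw [hl] at hi
      exact hn i hi
  · unfold nb
    have h1 : ((dts (univ : Finset V)).image c).erase 0 = (range b).image (fun i => i + 1) := by
      ext k
      rw [Finset.mem_erase, Finset.mem_image, Finset.mem_image]
      constructor
      · rintro ⟨hk, d, _, rfl⟩
        rcases hlt d with h1 | ⟨j, _, h1⟩
        · exact absurd h1 hk
        · exact ⟨j.val, Finset.mem_range.2 j.2, h1.symm⟩
      · rintro ⟨i, hi, rfl⟩
        refine ⟨Nat.succ_ne_zero i, ?_⟩
        have hne := hF.ne ⟨i, Finset.mem_range.1 hi⟩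
        rw [SimpleGraph.ne_bot_iff_exists_adj] at hne
        obtain ⟨u, w, huw⟩ := hne
        obtain ⟨l, hl⟩ := hsurj u w (hF.le _ huw)
        refine ⟨(u, l), ?_, ?_⟩
        · unfold dts
          exact Finset.mem_product.2 ⟨Finset.mem_univ _, Finset.mem_univ _⟩
        · refine hc1 (u, l) ⟨i, Finset.mem_range.1 hi⟩ ?_
          rw [hl]
          exact huw
    rw [h1, Finset.card_image_of_injective _ (add_left_injective 1), Finset.card_range]
  · intro v
    unfold Wt span
    rw [Finset.mem_filter, Set.mem_ofPred_eq]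
    constructor
    · rintro ⟨_, l, hl⟩
      obtain ⟨i, hi⟩ := (hc0 (v, l)).1 hl
      exact ⟨i, _, hi⟩
    · rintro ⟨i, w, hw⟩
      obtain ⟨l, hl⟩ := hsurj v w (hF.le i hw)
      refine ⟨Finset.mem_univ _, l, (hc0 (v, l)).2 ⟨i, ?_⟩⟩
      rw [hl]
      exact hw

end Pool.Agent.CY
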