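import Pool.Agent.helper56.CY.Spec
import Pool.Agent.helper56.CT.Fin1

/-! # Row cy:LOP: a loop -/

set_option autoImplicit false

namespace Pool.Agent.CY
open Finset CT

theorem LOP : LOP_stmt := by
  intro V _ _ L e u i j hnd hL hA hij hloop
  obtain ⟨i2, i3, hin, hia⟩ := D4_ex i j hij
  have huL : u ∉ L := (List.nodup_cons.1 hnd).1
  have hLn : L.Nodup := (List.nodup_cons.1 hnd).2
  have hmu : ∀ k : Fin 4, (u, k) ∈ dts (u :: L).toFinset := by
    intro k
    unfold dts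
    rw [Finset.mem_product]
    exact ⟨by simp, Finset.mem_univ _⟩
  have he := hA.1
  have hact : ∀ k, e (u, k) ≠ (u, k) := fun k => (hA.2 (u, k)).2 (hmu k)
  have hne : ∀ a b : Fin 4, a ≠ b → ((u, a) : V × Fin 4) ≠ (u, b) :=
    fun a b hab h => hab (congrArg Prod.snd h)
  have hZ : Z (-4) (u :: L) e = ∑ t : Fin 3, (-4 : ℤ) ^ ls e u t * Z (-4) L (sm e u t) := rfl
  rw [hZ, D2_sum (-4) (Z (-4) L) e he u hact i j i2 i3 hin]
  simp only [List.nodup_cons, List.mem_cons, List.not_mem_nil, or_false, not_or,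
    List.nodup_nil, and_true, not_false_eq_true] at hin
  obtain ⟨⟨n1, n2, n3⟩, ⟨n4, n5⟩, n6⟩ := hin
  have m1 := hne _ _ n1
  have m2 := hne _ _ n2
  have m3 := hne _ _ n3
  have m4 := hne _ _ n4
  have m5 := hne _ _ n5
  have m6 := hne _ _ n6
  obtain ⟨c1, c2, c3⟩ := join_chain e he hloop m1 m2 m3 m4 m5 m6 (hact i2) (hact i3)
  obtain ⟨d1, d2, d3⟩ := join_chain e he hloop m1 m3 m2 m5 m4 m6.symm (hact i3) (hact i2)
  have he1 := join_invol e he m1 (hact i) (hact j)
  have hlp : CT.lp e (u, i) (u, j) = 1 := by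
    unfold CT.lp
    rw [if_pos hloop]
  unfold D2_F
  rw [c1, c2, c3, d1, d2, d3, hlp, join_symm _ he1 (u, i3) (u, i2), lp_symm _ he1 (u, i3) (u, i2)]
  have hA1 := join_act hA (hmu i) (hmu j) m1
  have hA2 := join_act hA1 (x := (u, i2)) (y := (u, i3))
    (mem_erase.2 ⟨m4.symm, mem_erase.2 ⟨m2.symm, hmu i2⟩⟩)
    (mem_erase.2 ⟨m5.symm, mem_erase.2 ⟨m3.symm, hmu i3⟩⟩) m6
  have hset : (((((dts (u :: L).toFinset).erase (u, i)).erase (u, j)).erase (u, i2)).erase (u, i3)) =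
      dts L.toFinset := by
    ext ⟨v, k⟩
    unfold dts
    simp only [mem_erase, mem_product, List.mem_toFinset, List.mem_cons, mem_univ, and_true]
    constructor
    · rintro ⟨h4, h3, h2, h1, h | h⟩
      · exfalso
        subst h
        rcases hia k with h5 | h5 | h5 | h5
        · exact h1 (by rw [h5])
        · exact h2 (by rw [h5])
        · exact h3 (by rw [h5])
        · exact h4 (by rw [h5])
      · exact h
    · intro h
      have hv : v ≠ u := fun h' => huL (h' ▸ h)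
      have h5 : ∀ l : Fin 4, (v, k) ≠ (u, l) := fun l h' => hv (congrArg Prod.fst h')
      exact ⟨h5 _, h5 _, h5 _, h5 _, Or.inr h⟩
  rw [hset] at hA2
  obtain ⟨K, hK⟩ := fJC1 V L _ hLn hL hA2
  rw [hK]
  refine ⟨-((-4) ^ CT.lp (join e (u, i) (u, j)) (u, i2) (u, i3) * K), ?_⟩
  rw [pow_add]
  ring

end Pool.Agent.CY
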